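import Pool.Agent.helper75.AU.SpecR

/-! # Project au, module BA1 (the groups `P_x`) -/

namespace Pool.Agent.helper75.AU

open scoped Classical
open Pool.Agent.helper53.AU MulAction

section

variable {k G X : Type} [Field k] [CharP k 3] [Group G] [Fintype G] [MulAction G X] [Fintype X]
  {g : ℕ}

omit [Fintype X] in
lemma BA1_unit (u : kˣ) (n : ℕ) (h : u ^ (3 ^ n) = 1) : u = 1 := by
  have h3 : Fact (Nat.Prime 3) := ⟨Nat.prime_three⟩
  have h1 : ((u : k) - 1) ^ (3 ^ n) = 0 := by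
    rw [sub_pow_char_pow (R := k) (p := 3), one_pow]
    have : ((u ^ (3 ^ n) : kˣ) : k) = 1 := by rw [h]; rfl
    rw [Units.val_pow_eq_pow_val] at this
    rw [this, sub_self]
  have h2 : (u : k) - 1 = 0 := pow_eq_zero_iff (by positivity) |>.mp h1
  apply Units.ext
  rw [Units.val_one]
  exact sub_eq_zero.mp h2

omit [CharP k 3] in
lemma BA1_mem (R : Ram k G X g) (x : X) (s : G) :
    s ∈ R.P x ↔ s • x = x ∧ (s = 1 ∨ 1 ≤ R.i x s) := by
  unfold Ram.P
  constructor
  · rintro ⟨s', hs', rfl⟩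
    have h1 : R.θ x s' = 1 := hs'
    exact ⟨s'.2, (R.tame x s').mp h1⟩
  · rintro ⟨h1, h2⟩
    exact ⟨⟨s, h1⟩, (R.tame x ⟨s, h1⟩).mpr h2, rfl⟩

omit [CharP k 3] in
lemma BA1_conj (R : Ram k G X g) (x : X) (a s : G) :
    a * s * a⁻¹ ∈ R.P (a • x) ↔ s ∈ R.P x := by
  rw [BA1_mem, BA1_mem, R.conj]
  have e1 : (a * s * a⁻¹) • (a • x) = a • (s • x) := by
    simp [mul_smul]
  have e2 : a * s * a⁻¹ = 1 ↔ s = 1 := by
    constructor
    · intro h
      have : s = a⁻¹ * (a * s * a⁻¹) * a := by group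
      rw [this, h]; group
    · rintro rfl; group
  rw [e1, e2]
  constructor
  · rintro ⟨h1, h2⟩
    exact ⟨smul_left_cancel a h1, h2⟩
  · rintro ⟨h1, h2⟩
    exact ⟨by rw [h1], h2⟩

omit [CharP k 3] in
lemma BA1_qq (R : Ram k G X g) (x : X) (a : G) : qq R (a • x) = qq R x := by
  unfold qq
  refine (Nat.card_congr (Equiv.subtypeEquiv (MulAut.conj a).toEquiv ?_)).symm
  intro s
  exact (BA1_conj R x a s).symm

omit [CharP k 3] in
lemma BA1_T (R : Ram k G X g) (x : X) (a : G) : R.T (a • x) = R.T x := by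
  unfold Ram.T
  symm
  refine Finset.sum_equiv (MulAut.conj a).toEquiv ?_ ?_
  · intro s
    rw [Finset.mem_filter, Finset.mem_filter]
    have e : (MulAut.conj a).toEquiv s = a * s * a⁻¹ := rfl
    rw [e, BA1_conj]
    have e2 : a * s * a⁻¹ = 1 ↔ s = 1 := by
      constructor
      · intro h
        have : s = a⁻¹ * (a * s * a⁻¹) * a := by group
        rw [this, h]; group
      · rintro rfl; group
    simp [e2]
  · intro s _
    exact (R.conj a s x).symm

omit [CharP k 3] in
lemma BA1_range_le (R : Ram k G X g) (x : X) (a : G) :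
    (R.θ x).range ≤ (R.θ (a • x)).range := by
  rintro _ ⟨c, rfl⟩
  have h : a * (c : G) * a⁻¹ ∈ stabilizer G (a • x) := by
    rw [mem_stabilizer_iff]
    have : (c : G) • x = x := c.2
    simp [mul_smul, this]
  exact ⟨⟨a * (c : G) * a⁻¹, h⟩, R.θconj a x c h⟩

omit [CharP k 3] in
lemma BA1_hh (R : Ram k G X g) (x : X) (a : G) : hh R (a • x) = hh R x := by
  unfold hh
  have h1 := BA1_range_le R x a
  have h2 := BA1_range_le R (a • x) a⁻¹
  rw [inv_smul_smul] at h2
  rw [le_antisymm h2 h1]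

omit [CharP k 3] in
lemma BA1_card (R : Ram k G X g) (x : X) :
    Nat.card (stabilizer G x) = qq R x * hh R x := by
  unfold qq hh Ram.P
  rw [← Subgroup.index_ker]
  have e : Nat.card (((R.θ x).ker).map (stabilizer G x).subtype) = Nat.card (R.θ x).ker :=
    (Nat.card_congr (Subgroup.equivMapOfInjective _ _ (stabilizer G x).subtype_injective).toEquiv).symm
  rw [e, Subgroup.card_mul_index]

end

theorem BA1 : BA1_stmt := by
  intro k G X _ _ _ _ _ _ g R x
  have h3 : Fact (Nat.Prime 3) := ⟨Nat.prime_three⟩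
  have hP : IsPGroup 3 (R.P x) := by
    rintro ⟨s, hs⟩
    obtain ⟨h1, h2⟩ := (BA1_mem R x s).mp hs
    rcases h2 with h2 | h2
    · exact ⟨0, by subst h2; simp⟩
    · by_cases hs1 : s = 1
      · exact ⟨0, by subst hs1; simp⟩
      · obtain ⟨n, hn⟩ := R.wild x s h1 hs1 h2
        exact ⟨n, Subtype.ext hn⟩
  have h3el : ∀ s : G, s • x = x → (∃ n : ℕ, s ^ (3 ^ n) = 1) → s ∈ R.P x := by
    rintro s hs ⟨n, hn⟩
    refine ⟨⟨s, hs⟩, ?_, rfl⟩
    rw [SetLike.mem_coe, MonoidHom.mem_ker]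
    apply BA1_unit _ n
    rw [← map_pow]
    have : (⟨s, hs⟩ : stabilizer G x) ^ (3 ^ n) = 1 := Subtype.ext hn
    rw [this, map_one]
  have hcard := BA1_card R x
  have hnd : ¬ 3 ∣ hh R x := by
    intro h
    unfold hh at h
    obtain ⟨u, hu⟩ := exists_prime_orderOf_dvd_card' 3 h
    have h1 : (u : kˣ) ^ (3 ^ 1) = 1 := by
      rw [pow_one, ← hu]
      have := pow_orderOf_eq_one u
      exact congrArg Subtype.val this
    have h2 := BA1_unit (u : kˣ) 1 h1
    have h3 : u = 1 := Subtype.ext h2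
    rw [h3, orderOf_one] at hu
    norm_num at hu
  have hq : ∃ m : ℕ, qq R x = 3 ^ m := IsPGroup.iff_card.mp hP
  refine ⟨hP, BA1_mem R x, h3el, BA1_conj R x, ?_, ?_, hcard, hnd, hq, ?_⟩
  · intro a s ha hs
    have := (BA1_conj R x a s).mpr hs
    rwa [ha] at this
  · intro a
    exact ⟨BA1_qq R x a, BA1_hh R x a, BA1_T R x a⟩
  · -- the complement
    have hcyc : IsCyclic (R.θ x).range := by infer_instance
    obtain ⟨⟨_, c0, rfl⟩, hgen⟩ := hcyc.exists_generator
    have hord0 : orderOf (R.θ x c0) = hh R x := by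
      have h1 := orderOf_eq_card_of_forall_mem_zpowers hgen
      rw [← Subgroup.orderOf_coe] at h1
      exact h1
    have hh0 : 0 < hh R x := Nat.card_pos
    obtain ⟨m, hm⟩ := hq
    have hco : Nat.Coprime (hh R x) (qq R x) := by
      rw [hm]
      apply Nat.Coprime.pow_right
      rw [Nat.coprime_comm, Nat.Prime.coprime_iff_not_dvd Nat.prime_three]
      exact hnd
    set c : stabilizer G x := c0 ^ (qq R x) with hc
    have hch : c ^ (hh R x) = 1 := by
      rw [hc, ← pow_mul, ← hcard]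
      exact pow_card_eq_one'
    have hθc : orderOf (R.θ x c) = hh R x := by
      rw [hc, map_pow]
      rw [Nat.Coprime.orderOf_pow (by rw [hord0]; exact hco), hord0]
    have hoc : orderOf c = hh R x := by
      apply Nat.dvd_antisymm
      · exact orderOf_dvd_of_pow_eq_one hch
      · rw [← hθc]
        exact orderOf_map_dvd (R.θ x) c
    refine ⟨(c : G), c.2, ?_, ?_, ?_⟩
    · rw [Subgroup.orderOf_coe]
      exact hoc
    · exact hθc
    · intro s hs
      have hmem : R.θ x ⟨s, hs⟩ ∈ Subgroup.zpowers (R.θ x c) := by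
        have hz : Subgroup.zpowers (R.θ x c) = (R.θ x).range := by
          apply Subgroup.eq_of_le_of_card_ge
          · rw [Subgroup.zpowers_le]
            exact ⟨c, rfl⟩
          · rw [Nat.card_zpowers, hθc]
            exact le_of_eq rfl
        rw [hz]
        exact ⟨_, rfl⟩
      have hfin : IsOfFinOrder (R.θ x c) :=
        MonoidHom.isOfFinOrder (R.θ x) (isOfFinOrder_of_finite c)
      rw [← hfin.mem_powers_iff_mem_zpowers] at hmem
      obtain ⟨n, hn⟩ := hmem
      have hn : R.θ x c ^ n = R.θ x ⟨s, hs⟩ := hn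
      refine ⟨s * ((c : G) ^ n)⁻¹, ?_, n, by group⟩
      refine ⟨⟨s, hs⟩ * (c ^ n)⁻¹, ?_, rfl⟩
      rw [SetLike.mem_coe, MonoidHom.mem_ker, map_mul, map_inv, map_pow, ← hn, mul_inv_cancel]

end Pool.Agent.helper75.AU
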