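import Pool.Agent.helper75.AU.SpecR

/-! # Project au, module F1 -/

namespace Pool.Agent.helper75.AU

open scoped Classical
open Pool.Agent.helper53.AU MulAction

/-- a nontrivial `3`-subgroup has a central element of order `3` -/
lemma F1_central {G : Type} [Group G] [Finite G] (S : Subgroup G) (hS : IsPGroup 3 S)
    (hbot : S ≠ ⊥) : ∃ z ∈ S, orderOf z = 3 ∧ ∀ s ∈ S, s * z = z * s := by
  have h3 : Fact (Nat.Prime 3) := ⟨Nat.prime_three⟩
  have hnt : Nontrivial S := (Subgroup.nontrivial_iff_ne_bot S).mpr hbot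
  have hc : Nontrivial (Subgroup.center S) := hS.center_nontrivial
  have hcp : IsPGroup 3 (Subgroup.center S) := hS.to_subgroup _
  obtain ⟨n, hn⟩ := hcp.exists_card_eq
  have hn0 : n ≠ 0 := by
    rintro rfl
    rw [pow_zero] at hn
    have := Finite.one_lt_card (α := Subgroup.center S)
    omega
  have hdvd : 3 ∣ Nat.card (Subgroup.center S) := by
    rw [hn]
    exact dvd_pow_self 3 hn0
  obtain ⟨u, hu⟩ := exists_prime_orderOf_dvd_card' 3 hdvd
  refine ⟨((u : S) : G), (u : S).2, ?_, ?_⟩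
  · rw [Subgroup.orderOf_coe, Subgroup.orderOf_coe]
    exact hu
  · intro s hs
    have := Subgroup.mem_center_iff.mp u.2 ⟨s, hs⟩
    exact congrArg Subtype.val this

/-- the elements `≠ 1` of the group generated by an element of order `3` -/
lemma F1_zp {G : Type} [Group G] (z s : G) (hz : orderOf z = 3) :
    (s ∈ Subgroup.zpowers z ∧ s ≠ 1) ↔ (s = z ∨ s = z⁻¹) := by
  have hz3 : z ^ 3 = 1 := by rw [← hz]; exact pow_orderOf_eq_one z
  have hz1 : z ≠ 1 := by
    rintro rfl
    rw [orderOf_one] at hz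
    norm_num at hz
  constructor
  · rintro ⟨⟨n, hn⟩, h1⟩
    have hn' : z ^ n = s := hn
    have hzz : z ^ (3 : ℤ) = 1 := by exact_mod_cast hz3
    have h4 : z ^ n = z ^ (n % 3) := by
      conv_lhs => rw [← Int.emod_add_mul_ediv n 3, zpow_add, zpow_mul, hzz, one_zpow, mul_one]
    have h5 : n % 3 = 0 ∨ n % 3 = 1 ∨ n % 3 = 2 := by omega
    rcases h5 with h5 | h5 | h5
    · rw [h5, zpow_zero] at h4
      exact absurd (hn'.symm.trans h4) h1
    · rw [h5, zpow_one] at h4
      exact Or.inl (hn'.symm.trans h4)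
    · right
      rw [h5] at h4
      rw [← hn', h4]
      apply eq_inv_of_mul_eq_one_left
      have : z ^ (2 : ℤ) * z = z ^ (3 : ℤ) := by
        rw [← zpow_add_one]
        norm_num
      rw [this, hzz]
  · rintro (rfl | rfl)
    · exact ⟨Subgroup.mem_zpowers _, hz1⟩
    · exact ⟨Subgroup.inv_mem _ (Subgroup.mem_zpowers _), inv_ne_one.mpr hz1⟩

theorem F1 (hBA1 : BA1_stmt) : F1_stmt := by
  intro k G X _ _ _ _ _ _ l R S hl hS hbot
  have h3 : Fact (Nat.Prime 3) := ⟨Nat.prime_three⟩
  obtain ⟨z, hzS, hz, hzc⟩ := F1_central S hS hbot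
  have hz3 : z ^ 3 = 1 := by rw [← hz]; exact pow_orderOf_eq_one z
  have hz1 : z ≠ 1 := by
    rintro rfl
    rw [orderOf_one] at hz
    norm_num at hz
  have hzinv : z ≠ z⁻¹ := by
    intro h
    have h1 : z ^ 2 = 1 := by
      rw [pow_two]
      nth_rewrite 2 [h]
      exact mul_inv_cancel z
    apply hz1
    have : z ^ 3 = z ^ 2 * z := pow_succ z 2
    rw [hz3, h1, one_mul] at this
    exact this.symm
  -- facts at a fixed point of `z`
  have hPz : ∀ x : X, z • x = x → z ∈ R.P x := by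
    intro x hx
    exact (hBA1 k G X (l + 1) R x).2.2.1 z hx ⟨1, by rw [pow_one]; exact hz3⟩
  have hiz : ∀ x : X, z • x = x → 1 ≤ R.i x z := by
    intro x hx
    have h := ((hBA1 k G X (l + 1) R x).2.1 z).mp (hPz x hx)
    exact h.2.resolve_left hz1
  -- Riemann-Hurwitz for `⟨z⟩`
  obtain ⟨γ, hγ⟩ := R.RH (Subgroup.zpowers z)
  have hcardz : Nat.card (Subgroup.zpowers z) = 3 := by rw [Nat.card_zpowers, hz]
  have hterm : ∀ x : X, (∑ s ∈ Finset.univ.filter (fun s : G => s ∈ Subgroup.zpowers z ∧ s ≠ 1 ∧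
      s • x = x), ((R.i x s : ℤ) + 1)) = if z • x = x then 2 * ((R.i x z : ℤ) + 1) else 0 := by
    intro x
    by_cases hx : z • x = x
    · rw [if_pos hx]
      have hx' : z⁻¹ • x = x := by
        conv_lhs => rw [← hx]
        exact inv_smul_smul z x
      have hset : Finset.univ.filter (fun s : G => s ∈ Subgroup.zpowers z ∧ s ≠ 1 ∧ s • x = x) =
          {z, z⁻¹} := by
        ext s
        rw [Finset.mem_filter, Finset.mem_insert, Finset.mem_singleton, ← F1_zp z s hz]
        constructor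
        · rintro ⟨_, h1, h2, _⟩
          exact ⟨h1, h2⟩
        · rintro ⟨h1, h2⟩
          refine ⟨Finset.mem_univ _, h1, h2, ?_⟩
          rcases (F1_zp z s hz).mp ⟨h1, h2⟩ with rfl | rfl
          · exact hx
          · exact hx'
      rw [hset, Finset.sum_pair hzinv, R.inv x z hx]
      ring
    · rw [if_neg hx]
      apply Finset.sum_eq_zero
      intro s hs
      exfalso
      rw [Finset.mem_filter] at hs
      obtain ⟨_, h1, h2, h3⟩ := hs
      rcases (F1_zp z s hz).mp ⟨h1, h2⟩ with rfl | rfl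
      · exact hx h3
      · apply hx
        conv_lhs => rw [← h3]
        exact smul_inv_smul z x
  simp only [hterm] at hγ
  rw [hcardz] at hγ
  -- mod 3
  have hmod : ∀ x : X, ((if z • x = x then 2 * ((R.i x z : ℤ) + 1) else 0) : ℤ) ≡
      (if z • x = x ∧ R.i x z % 3 = 1 then 1 else 0) [ZMOD 3] := by
    intro x
    by_cases hx : z • x = x
    · rw [if_pos hx]
      have h1 := R.prime3 x z hx hz1 (hiz x hx)
      by_cases h2 : R.i x z % 3 = 1
      · rw [if_pos ⟨hx, h2⟩]
        rw [Int.modEq_iff_dvd]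
        omega
      · rw [if_neg (fun h => h2 h.2)]
        rw [Int.modEq_iff_dvd]
        omega
    · rw [if_neg hx, if_neg (fun h => hx h.1)]
  have hsum : (∑ x : X, (if z • x = x then 2 * ((R.i x z : ℤ) + 1) else 0) : ℤ) ≡
      ∑ x : X, (if z • x = x ∧ R.i x z % 3 = 1 then 1 else 0) [ZMOD 3] := by
    have : ∀ s : Finset X, (∑ x ∈ s, (if z • x = x then 2 * ((R.i x z : ℤ) + 1) else 0) : ℤ) ≡
      ∑ x ∈ s, (if z • x = x ∧ R.i x z % 3 = 1 then 1 else 0) [ZMOD 3] := by
      intro s
      induction s using Finset.induction_on with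
      | empty => simp
      | insert a s ha ih =>
        rw [Finset.sum_insert ha, Finset.sum_insert ha]
        exact (hmod a).add ih
    exact this _
  -- the invariant set
  let Y : SubMulAction S X :=
    { carrier := {x | z • x = x ∧ R.i x z % 3 = 1}
      smul_mem' := by
        rintro ⟨s, hs⟩ x ⟨h1, h2⟩
        have e : s * z * s⁻¹ = z := by rw [hzc s hs]; group
        refine ⟨?_, ?_⟩
        · show z • (s • x) = s • x
          rw [← mul_smul, ← hzc s hs, mul_smul, h1]
        · show R.i (s • x) z % 3 = 1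
          have := R.conj s z x
          rw [e] at this
          rw [this]
          exact h2 }
  have hYcard : (Nat.card Y : ℤ) = ∑ x : X, (if z • x = x ∧ R.i x z % 3 = 1 then 1 else 0) := by
    rw [Finset.sum_boole]
    have : Nat.card Y = (Finset.univ.filter (fun x : X => z • x = x ∧ R.i x z % 3 = 1)).card := by
      rw [← Fintype.card_subtype, ← Nat.card_eq_fintype_card]
      rfl
    rw [this]
  have hYmod : Nat.card Y % 3 = 2 := by
    rw [← hYcard] at hsum
    have h5 : ((3 : ℕ) : ℤ) * (2 * (γ : ℤ) - 2) = 3 * (2 * (γ : ℤ) - 2) := by norm_num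
    rw [h5] at hγ
    have h6 := hsum.symm
    rw [Int.modEq_iff_dvd] at h6
    obtain ⟨a, ha⟩ := h6
    push_cast at hγ
    have hlz : (l : ℤ) % 3 = 1 := by exact_mod_cast hl
    omega
  have hfixmod := hS.card_modEq_card_fixedPoints (α := Y)
  -- fixed points
  have hfp : Nat.card (fixedPoints S Y) = Nat.card {x : X // (∀ s ∈ S, s • x = x) ∧ Cl1 R x} := by
    refine Nat.card_congr ⟨fun y => ⟨(y.1 : X), ?_, ?_⟩, fun x => ⟨⟨x.1, ?_, ?_⟩, ?_⟩, ?_, ?_⟩
    · intro s hs
      have := y.2 ⟨s, hs⟩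
      exact congrArg Subtype.val this
    · obtain ⟨⟨y, hy1, hy2⟩, hy⟩ := y
      exact ⟨z, hPz y hy1, hz1, hy2⟩
    · exact x.2.1 z hzS
    · obtain ⟨x, hx, s, hs, hs1, hs2⟩ := x
      have hzx := hx z hzS
      have hsP := ((hBA1 k G X (l + 1) R x).2.1 s).mp hs
      have := R.cong3 x s z hsP.1 hzx hs1 hz1 (hsP.2.resolve_left hs1) (hiz x hzx)
      rw [← this]
      exact hs2
    · intro s
      apply Subtype.ext
      exact x.2.1 s.1 s.2
    · intro y
      rfl
    · intro x
      rfl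
  rw [hfp] at hfixmod
  have hres : Nat.card {x : X // (∀ s ∈ S, s • x = x) ∧ Cl1 R x} % 3 = 2 := by
    have h7 : Nat.card Y % 3 = Nat.card {x : X // (∀ s ∈ S, s • x = x) ∧ Cl1 R x} % 3 := hfixmod
    rw [← h7]
    exact hYmod
  refine ⟨hres, ?_⟩
  have h1 : 1 < Nat.card {x : X // (∀ s ∈ S, s • x = x) ∧ Cl1 R x} := by omega
  have hnt := Finite.one_lt_card_iff_nontrivial.mp h1
  obtain ⟨a, b, hab⟩ := hnt.exists_pair_ne
  exact ⟨a.1, b.1, fun h => hab (Subtype.ext h), a.2.1, b.2.1, a.2.2, b.2.2⟩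

end Pool.Agent.helper75.AU
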