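import Pool.Agent.helper75.AU.SpecR

/-! # Project au, module F2 -/

namespace Pool.Agent.helper75.AU

open scoped Classical
open Pool.Agent.helper53.AU MulAction

theorem F2 (hBA1 : BA1_stmt) (hBA3 : BA3_stmt) (hF1 : F1_stmt) : F2_stmt := by
  intro k G X _ _ _ _ _ _ l R S hS
  have hfix : ∀ x : X, (∀ s ∈ S, s • x = x) → (R.d S x : ℤ) + 1 = Nat.card S + TS R S x := by
    intro x hx
    have h := (hBA3 k G X (l + 1) R x S).2.2.1
    have e : S ⊓ stabilizer G x = S := inf_eq_left.mpr fun s hs => hx s hs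
    rw [e] at h
    exact_mod_cast h
  have hmain : ∀ x x' : X, x ≠ x' → (∀ s ∈ S, s • x = x) → (∀ s ∈ S, s • x' = x') →
      TS R S x + TS R S x' ≤ 2 * (l + 1) := by
    intro x x' hxx hx hx'
    obtain ⟨γ, hγ⟩ := R.RH S
    have hd : ∀ z : X, (∑ s ∈ Finset.univ.filter (fun s : G => s ∈ S ∧ s ≠ 1 ∧ s • z = z),
        ((R.i z s : ℤ) + 1)) = (R.d S z : ℤ) := by
      intro z
      unfold Ram.d
      push_cast
      rfl
    simp only [hd] at hγ
    have h2 : (R.d S x : ℤ) + R.d S x' ≤ ∑ z : X, (R.d S z : ℤ) := by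
      have h3 : ∑ z ∈ ({x, x'} : Finset X), (R.d S z : ℤ) ≤ ∑ z : X, (R.d S z : ℤ) :=
        Finset.sum_le_sum_of_subset_of_nonneg (Finset.subset_univ _)
          (fun _ _ _ => Int.natCast_nonneg _)
      rwa [Finset.sum_pair hxx] at h3
    have e1 := hfix x hx
    have e2 := hfix x' hx'
    have hS0 : (0 : ℤ) ≤ Nat.card S := Int.natCast_nonneg _
    have hγ0 : (0 : ℤ) ≤ (Nat.card S : ℤ) * γ := mul_nonneg hS0 (Int.natCast_nonneg _)
    have e3 : (Nat.card S : ℤ) * (2 * (γ : ℤ) - 2) = 2 * ((Nat.card S : ℤ) * γ) -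
      2 * (Nat.card S : ℤ) := by ring
    rw [e3] at hγ
    push_cast at hγ
    have : (TS R S x : ℤ) + TS R S x' ≤ 2 * (l + 1) := by linarith
    exact_mod_cast this
  refine ⟨hmain, fun hl => ?_⟩
  by_cases hbot : S = ⊥
  · rw [hbot, Subgroup.card_bot]
    omega
  · obtain ⟨_, x, x', hxx, hx, hx', _, _⟩ := hF1 k G X l R S hl hS hbot
    have hm := hmain x x' hxx hx hx'
    have hle : ∀ x : X, (∀ s ∈ S, s • x = x) → Nat.card S ≤ TS R S x + 1 := by
      intro x hx
      have h := (hBA3 k G X (l + 1) R x S).2.1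
      have hP : S ≤ R.P x := by
        intro s hs
        apply (hBA1 k G X (l + 1) R x).2.2.1 s (hx s hs)
        obtain ⟨n, hn⟩ := hS ⟨s, hs⟩
        exact ⟨n, congrArg Subtype.val hn⟩
      rw [inf_eq_left.mpr hP] at h
      exact h
    have h1 := hle x hx
    have h2 := hle x' hx'
    omega

end Pool.Agent.helper75.AU
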