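import Pool.Agent.helper75.AU.SpecR

/-! # Project au, module F3a -/

namespace Pool.Agent.helper75.AU

open scoped Classical
open Pool.Agent.helper53.AU MulAction

/-- the sum of an invariant function for a `p`-group without fixed points -/
lemma F3a_sum {Q X : Type} [Group Q] [Finite Q] [MulAction Q X] [Fintype X] (p : ℕ)
    (hp : p.Prime) (hQ : IsPGroup p Q) (f : X → ℤ) (hf : ∀ (s : Q) (x : X), f (s • x) = f x)
    (hfix : ∀ x : X, ∃ s : Q, s • x ≠ x) : (p : ℤ) ∣ ∑ x : X, f x := by
  have hF : Fact (Nat.Prime p) := ⟨hp⟩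
  have h1 : ∑ x : X, f x = ∑ b ∈ Finset.univ.image f,
      (Finset.univ.filter (fun a : X => f a = b)).card • b := by
    have := Finset.sum_comp (s := (Finset.univ : Finset X)) (fun b : ℤ => b) f
    exact this
  rw [h1]
  apply Finset.dvd_sum
  intro b _
  let Y : SubMulAction Q X :=
    { carrier := {x | f x = b}
      smul_mem' := by
        intro s x hx
        show f (s • x) = b
        rw [hf]
        exact hx }
  have h2 := hQ.card_modEq_card_fixedPoints (α := Y)
  have h3 : Nat.card (fixedPoints Q Y) = 0 := by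
    have : IsEmpty (fixedPoints Q Y) := by
      constructor
      rintro ⟨y, hy⟩
      obtain ⟨s, hs⟩ := hfix y.1
      exact hs (congrArg Subtype.val (hy s))
    exact Nat.card_of_isEmpty
  rw [h3] at h2
  have h4 : Nat.card Y = (Finset.univ.filter (fun a : X => f a = b)).card := by
    rw [← Fintype.card_subtype, ← Nat.card_eq_fintype_card]
    rfl
  rw [h4] at h2
  have h5 : p ∣ (Finset.univ.filter (fun a : X => f a = b)).card :=
    (Nat.modEq_zero_iff_dvd).mp h2
  rw [nsmul_eq_mul]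
  exact Dvd.dvd.mul_right (by exact_mod_cast h5) b

theorem F3a (hBA1 : BA1_stmt) (hBA2 : BA2_stmt) (hBA3 : BA3_stmt) : F3a_stmt := by
  intro k G X _ _ _ _ _ _ l R r Q hl hr hr5 hrl hQ
  have hF : Fact (Nat.Prime r) := ⟨hr⟩
  have h3 : Fact (Nat.Prime 3) := ⟨Nat.prime_three⟩
  have hmain : Q = ⊥ ∨ ∃ x : X, ∀ s ∈ Q, s • x = x := by
    by_contra hcon
    push Not at hcon
    obtain ⟨hbot, hnofix⟩ := hcon
    obtain ⟨γ, hγ⟩ := R.RH Q
    have hd : ∀ z : X, (∑ s ∈ Finset.univ.filter (fun s : G => s ∈ Q ∧ s ≠ 1 ∧ s • z = z),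
        ((R.i z s : ℤ) + 1)) = (R.d Q z : ℤ) := by
      intro z
      unfold Ram.d
      push_cast
      rfl
    simp only [hd] at hγ
    have h1 : (r : ℤ) ∣ ∑ z : X, (R.d Q z : ℤ) := by
      apply F3a_sum (Q := Q) r hr hQ
      · rintro ⟨a, ha⟩ x
        have hnorm : ∀ s : G, a * s * a⁻¹ ∈ Q ↔ s ∈ Q := by
          intro s
          constructor
          · intro h
            have : s = a⁻¹ * (a * s * a⁻¹) * a := by group
            rw [this]
            exact Q.mul_mem (Q.mul_mem (Q.inv_mem ha) h) ha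
          · intro h
            exact Q.mul_mem (Q.mul_mem ha h) (Q.inv_mem ha)
        have := ((hBA3 k G X (l + 1) R x Q).2.2.2.2.2.2.2.1 a hnorm).1
        show (R.d Q (a • x) : ℤ) = R.d Q x
        rw [this]
      · intro x
        obtain ⟨s, hs, hsx⟩ := hnofix x
        exact ⟨⟨s, hs⟩, hsx⟩
    have h2 : (r : ℤ) ∣ (Nat.card Q : ℤ) := by
      obtain ⟨n, hn⟩ := hQ.exists_card_eq
      have hn0 : n ≠ 0 := by
        rintro rfl
        rw [pow_zero] at hn
        exact hbot (Subgroup.card_eq_one.mp hn)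
      rw [hn]
      exact_mod_cast dvd_pow_self r hn0
    have h4 : (r : ℤ) ∣ 2 * (l : ℤ) := by
      have e : 2 * (l : ℤ) = (Nat.card Q : ℤ) * (2 * (γ : ℤ) - 2) + ∑ z : X, (R.d Q z : ℤ) := by
        rw [← hγ]
        push_cast
        ring
      rw [e]
      exact dvd_add (Dvd.dvd.mul_right h2 _) h1
    have h5 : r ∣ 2 * l := by exact_mod_cast h4
    rcases (Nat.Prime.dvd_mul hr).mp h5 with h6 | h6
    · have := Nat.le_of_dvd (by norm_num) h6
      omega
    · exact hrl ((Nat.prime_dvd_prime_iff_eq hr hl).mp h6)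
  refine ⟨hmain, ?_⟩
  rcases hmain with h | ⟨x, hx⟩
  · rw [h]
    infer_instance
  · apply (hBA2 k G X (l + 1) R x Q).2 (fun s hs => hx s hs)
    have := IsPGroup.disjoint_of_ne r 3 (by omega) Q (R.P x) hQ (hBA1 k G X (l + 1) R x).1
    exact disjoint_iff.mp this

end Pool.Agent.helper75.AU
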