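import Pool.Agent.helper75.AU.SpecR

/-! # Project au, module F3c -/

namespace Pool.Agent.helper75.AU

open scoped Classical
open Pool.Agent.helper53.AU MulAction

theorem F3c : F3c_stmt := by
  intro k G X _ _ _ _ _ _ l R hl h5
  have hF : Fact (Nat.Prime l) := ⟨hl⟩
  -- tameness of elements of order prime to 3
  have htame : ∀ (x : X) (t : G), t • x = x → t ≠ 1 → Nat.Coprime (orderOf t) 3 →
      R.i x t = 0 := by
    intro x t hx ht hco
    by_contra h0
    obtain ⟨n, hn⟩ := R.wild x t hx ht (Nat.one_le_iff_ne_zero.mpr h0)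
    have h1 := orderOf_dvd_of_pow_eq_one hn
    have h2 : Nat.Coprime (orderOf t) (3 ^ n) := Nat.Coprime.pow_right n hco
    have h3 : orderOf t = 1 := Nat.Coprime.eq_one_of_dvd h2 h1
    exact ht (orderOf_eq_one_iff.mp h3)
  have hl3 : Nat.Coprime l 3 := (Nat.coprime_primes hl Nat.prime_three).mpr (by omega)
  have h1 : ∀ s : G, orderOf s = l → ∀ x : X, s • x ≠ x := by
    intro s hs x0 hx0
    obtain ⟨γ, hγ⟩ := R.RH (Subgroup.zpowers s)
    have hcard : Nat.card (Subgroup.zpowers s) = l := by rw [Nat.card_zpowers, hs]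
    have hgen : ∀ t ∈ Subgroup.zpowers s, t ≠ 1 → orderOf t = l ∧ s ∈ Subgroup.zpowers t := by
      intro t ht ht1
      have hd : orderOf t ∣ l := by
        rw [← hcard]
        exact Subgroup.orderOf_dvd_natCard _ ht
      have ho : orderOf t = l := by
        rcases (Nat.dvd_prime hl).mp hd with h | h
        · exact absurd (orderOf_eq_one_iff.mp h) ht1
        · exact h
      refine ⟨ho, ?_⟩
      have hz : Subgroup.zpowers t = Subgroup.zpowers s := by
        apply Subgroup.eq_of_le_of_card_ge
        · rw [Subgroup.zpowers_le]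
          exact ht
        · rw [hcard, Nat.card_zpowers, ho]
      rw [hz]
      exact Subgroup.mem_zpowers s
    have hterm : ∀ x : X, (∑ t ∈ Finset.univ.filter (fun t : G => t ∈ Subgroup.zpowers s ∧ t ≠ 1 ∧
        t • x = x), ((R.i x t : ℤ) + 1)) = if s • x = x then (l : ℤ) - 1 else 0 := by
      intro x
      by_cases hx : s • x = x
      · rw [if_pos hx]
        have hall : ∀ t ∈ Subgroup.zpowers s, t • x = x := by
          intro t ht
          have : Subgroup.zpowers s ≤ stabilizer G x := by
            rw [Subgroup.zpowers_le]; exact hx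
          exact this ht
        have hset : Finset.univ.filter (fun t : G => t ∈ Subgroup.zpowers s ∧ t ≠ 1 ∧ t • x = x) =
            (Finset.univ.filter (fun t : G => t ∈ Subgroup.zpowers s)).erase 1 := by
          ext t
          simp only [Finset.mem_filter, Finset.mem_univ, true_and, Finset.mem_erase]
          constructor
          · rintro ⟨a, b, _⟩
            exact ⟨b, a⟩
          · rintro ⟨b, a⟩
            exact ⟨a, b, hall t a⟩
        have hc : (Finset.univ.filter (fun t : G => t ∈ Subgroup.zpowers s)).card = l := by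
          rw [← hcard, Nat.card_eq_fintype_card, Fintype.card_subtype]
        rw [Finset.sum_congr rfl (g := fun _ => (1 : ℤ)), hset, Finset.sum_const,
          Finset.card_erase_of_mem (by simp [Subgroup.one_mem]), hc, nsmul_eq_mul, mul_one,
          Nat.cast_sub (by omega), Nat.cast_one]
        intro t ht
        rw [Finset.mem_filter] at ht
        obtain ⟨_, a, b, c⟩ := ht
        rw [htame x t c b (by rw [(hgen t a b).1]; exact hl3)]
        norm_num
      · rw [if_neg hx]
        apply Finset.sum_eq_zero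
        intro t ht
        exfalso
        rw [Finset.mem_filter] at ht
        obtain ⟨_, a, b, c⟩ := ht
        apply hx
        have : Subgroup.zpowers t ≤ stabilizer G x := by
          rw [Subgroup.zpowers_le]; exact c
        exact this (hgen t a b).2
    simp only [hterm] at hγ
    rw [hcard, ← Finset.sum_filter, Finset.sum_const, nsmul_eq_mul] at hγ
    set f : ℕ := (Finset.univ.filter (fun x : X => s • x = x)).card with hf
    have hf0 : 0 < f := by
      rw [hf, Finset.card_pos]
      exact ⟨x0, by simp [hx0]⟩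
    have hdvd : (l : ℤ) ∣ f := by
      push_cast at hγ
      have : (l : ℤ) ∣ (f : ℤ) * ((l : ℤ) - 1) := by
        refine ⟨2 - (2 * (γ : ℤ) - 2), ?_⟩
        linarith
      have h2 : (f : ℤ) = (l : ℤ) * f - f * ((l : ℤ) - 1) := by ring
      rw [h2]
      exact dvd_sub (dvd_mul_right _ _) this
    obtain ⟨m, hm⟩ := hdvd
    rw [hm] at hγ
    push_cast at hγ
    have hl0 : (l : ℤ) ≠ 0 := by
      have := hl.pos
      exact_mod_cast this.ne'
    have hkey : (4 : ℤ) = 2 * γ + m * (l - 1) := by
      have : (l : ℤ) * 4 = l * (2 * γ + m * (l - 1)) := by linarith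
      exact mul_left_cancel₀ hl0 this
    have hlz : (5 : ℤ) < l := by exact_mod_cast h5
    have hm0 : 0 < m := by
      have h6 : (0 : ℤ) < l * m := by rw [← hm]; exact_mod_cast hf0
      exact (pos_iff_pos_of_mul_pos h6).mp (by linarith)
    have hγ0 : (0 : ℤ) ≤ γ := Int.natCast_nonneg _
    nlinarith
  have h2 : ∀ x : X, ¬ l ∣ Nat.card (stabilizer G x) := by
    intro x hdvd
    obtain ⟨u, hu⟩ := exists_prime_orderOf_dvd_card' l hdvd
    apply h1 (u : G) _ x u.2
    rw [Subgroup.orderOf_coe]
    exact hu
  refine ⟨h1, h2, ?_⟩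
  intro hdvd
  obtain ⟨Lam, hLam⟩ := Sylow.exists_subgroup_card_pow_prime l hdvd
  obtain ⟨γ, hγ⟩ := R.RH Lam
  have hzero : ∑ x : X, ∑ s ∈ Finset.univ.filter (fun s : G => s ∈ Lam ∧ s ≠ 1 ∧ s • x = x),
      ((R.i x s : ℤ) + 1) = 0 := by
    apply Finset.sum_eq_zero
    intro x _
    apply Finset.sum_eq_zero
    intro t ht
    exfalso
    rw [Finset.mem_filter] at ht
    obtain ⟨_, a, b, c⟩ := ht
    have hd : orderOf t ∣ l ^ 2 := by
      rw [← hLam]
      exact Subgroup.orderOf_dvd_natCard _ a
    obtain ⟨j, _, hj⟩ := (Nat.dvd_prime_pow hl).mp hd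
    have hd2 : orderOf t ∣ Nat.card (stabilizer G x) := Subgroup.orderOf_dvd_natCard _ c
    have hj0 : j = 0 := by
      by_contra hj0
      apply h2 x
      refine dvd_trans ?_ hd2
      rw [hj]
      exact dvd_pow_self l hj0
    rw [hj0, pow_zero] at hj
    exact b (orderOf_eq_one_iff.mp hj)
  rw [hzero, hLam] at hγ
  push_cast at hγ
  have hlz : (5 : ℤ) < l := by exact_mod_cast h5
  have h7 : (l : ℤ) ∣ 2 := by
    refine ⟨2 * γ - 2, ?_⟩
    have hl0 : (l : ℤ) ≠ 0 := by omega
    have : (l : ℤ) * 2 = l * (l * (2 * γ - 2)) := by linarith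
    exact mul_left_cancel₀ hl0 this
  have := Int.le_of_dvd (by norm_num) h7
  omega

end Pool.Agent.helper75.AU
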