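import Pool.Agent.helper75.AU.SpecR

/-! # Project au, module FINR (assembly of the group theoretic part) -/

namespace Pool.Agent.helper75.AU

open scoped Classical
open Pool.Agent.helper53.AU MulAction

theorem FINR : FINR_stmt := by
  intro h45 h6 h8 hIG h12
  intro k G X _ _ _ _ _ _ l R hl
  by_contra hcon
  have hbig : 8 * (l + 1) < Nat.card G := by omega
  obtain ⟨hnl, X', i1, i2, R', x, y, htwo, hy, hnn⟩ := h45 k G X l R hl hbig
  obtain ⟨c, u, h', e', u₁, hsix, hcase⟩ := h6 k G X' l R' x y hl hbig hnl htwo hy hnn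
  rcases hcase with hI | hII
  · obtain ⟨m, hm, hm2, he, hh, hml⟩ := hIG k G X' l R' x y c u h' e' u₁ hl hsix hI
    exact h12 k G X' l R' x y u h' e' m hl htwo hsix.num hm hm2 he hh hml
  · exact h8 k G X' l R' x y c u h' e' u₁ hl hsix hII

end Pool.Agent.helper75.AU
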