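import Pool.Agent.helper75.AU.SpecR

/-! # Project au, module II4 (`E` is transitive) -/

namespace Pool.Agent.helper75.AU

open scoped Classical
open Pool.Agent.helper53.AU MulAction

section

variable {Gam Om : Type} [Group Gam] [MulAction Gam Om]

/-- the action of the group on the orbits of a normal subgroup -/
@[reducible] def II4_act (E : Subgroup Gam) (hE : E.Normal) :
    MulAction Gam (orbitRel.Quotient E Om) where
  smul g := Quotient.map (fun x => g • x) (by
    intro x y h
    have h' : x ∈ orbit E y := h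
    obtain ⟨⟨e, he⟩, hx⟩ := h'
    have hx' : e • y = x := hx
    have h2 : g • x ∈ orbit E (g • y) := by
      refine ⟨⟨g * e * g⁻¹, hE.conj_mem e he g⟩, ?_⟩
      show (g * e * g⁻¹) • (g • y) = g • x
      rw [← hx', mul_smul, mul_smul, inv_smul_smul]
    exact h2)
  one_smul := by
    intro y
    induction y using Quotient.inductionOn with
    | h a => exact congrArg (Quotient.mk _) (one_smul Gam a)
  mul_smul := by
    intro g h y
    induction y using Quotient.inductionOn with
    | h a => exact congrArg (Quotient.mk _) (mul_smul g h a)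

/-- the permutation representation on the orbits of a normal subgroup -/
def II4_rho (E : Subgroup Gam) (hE : E.Normal) :
    Gam →* Equiv.Perm (orbitRel.Quotient E Om) :=
  @MulAction.toPermHom Gam (orbitRel.Quotient E Om) _ (II4_act E hE)

lemma II4_rho_mk (E : Subgroup Gam) (hE : E.Normal) (g : Gam) (a : Om) :
    II4_rho (Om := Om) E hE g (Quotient.mk (orbitRel E Om) a) =
      Quotient.mk (orbitRel E Om) (g • a) := rfl

lemma II4_mk_eq (E : Subgroup Gam) (a b : Om) :
    (Quotient.mk (orbitRel E Om) a = Quotient.mk (orbitRel E Om) b) ↔ ∃ e ∈ E, e • b = a := by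
  rw [Quotient.eq]
  constructor
  · intro h
    have h' : a ∈ orbit E b := h
    obtain ⟨⟨e, he⟩, hx⟩ := h'
    exact ⟨e, he, hx⟩
  · rintro ⟨e, he, hx⟩
    have h' : a ∈ orbit E b := ⟨⟨e, he⟩, hx⟩
    exact h'

end

/-- commutators of elements normalising a cyclic group centralise it -/
lemma II4_comm {P : Type} [Group P] (α x y : P)
    (hx : x * α * x⁻¹ ∈ Subgroup.zpowers α) (hy : y * α * y⁻¹ ∈ Subgroup.zpowers α)
    (hw : (y * x)⁻¹ * α * (y * x) ∈ Subgroup.zpowers α) :
    (x * y * x⁻¹ * y⁻¹) * α = α * (x * y * x⁻¹ * y⁻¹) := by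
  obtain ⟨i, hi⟩ := hx
  obtain ⟨j, hj⟩ := hy
  obtain ⟨l, hl⟩ := hw
  have hi' : α ^ i = x * α * x⁻¹ := hi
  have hj' : α ^ j = y * α * y⁻¹ := hj
  have hl' : α ^ l = (y * x)⁻¹ * α * (y * x) := hl
  have h1 : (x * y) * α * (x * y)⁻¹ = α ^ (i * j) := by
    have : (x * y) * α * (x * y)⁻¹ = x * (y * α * y⁻¹) * x⁻¹ := by group
    rw [this, ← hj', ← conj_zpow, ← hi', ← zpow_mul]
  have h2 : (y * x) * α * (y * x)⁻¹ = α ^ (i * j) := by
    have : (y * x) * α * (y * x)⁻¹ = y * (x * α * x⁻¹) * y⁻¹ := by group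
    rw [this, ← hi', ← conj_zpow, ← hj', ← zpow_mul, mul_comm]
  have h3 : (x * y) * α ^ l * (x * y)⁻¹ = (y * x) * α ^ l * (y * x)⁻¹ := by
    rw [← conj_zpow, ← conj_zpow, h1, h2]
  rw [hl'] at h3
  have h4 : (y * x) * ((y * x)⁻¹ * α * (y * x)) * (y * x)⁻¹ = α := by group
  rw [h4] at h3
  have h5 : (x * y) * ((y * x)⁻¹ * α * (y * x)) * (x * y)⁻¹ =
      (x * y * x⁻¹ * y⁻¹) * α * (x * y * x⁻¹ * y⁻¹)⁻¹ := by group
  rw [h5] at h3
  calc (x * y * x⁻¹ * y⁻¹) * α
      = ((x * y * x⁻¹ * y⁻¹) * α * (x * y * x⁻¹ * y⁻¹)⁻¹) * (x * y * x⁻¹ * y⁻¹) := by group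
    _ = α * (x * y * x⁻¹ * y⁻¹) := by rw [h3]

/-- an element with two coprime powers in a subgroup lies in it -/
lemma II4_coprime {W : Type} [Group W] (A : Subgroup W) (w : W) (m n : ℕ) (h : Nat.Coprime m n)
    (hm : w ^ m ∈ A) (hn : w ^ n ∈ A) : w ∈ A := by
  have h1 : IsCoprime (m : ℤ) (n : ℤ) := Nat.isCoprime_iff_coprime.mpr h
  obtain ⟨a, b, hab⟩ := h1
  have h2 : w = (w ^ m) ^ a * (w ^ n) ^ b := by
    rw [← zpow_natCast w m, ← zpow_natCast w n, ← zpow_mul, ← zpow_mul, ← zpow_add]
    have : (m : ℤ) * a + (n : ℤ) * b = 1 := by linarith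
    rw [this, zpow_one]
  rw [h2]
  exact A.mul_mem (A.zpow_mem hm a) (A.zpow_mem hn b)

theorem II4 (hLO : LO_stmt) (hII3 : II3_stmt) : II4_stmt := by
  intro Gam Om _ _ L c hctx E hE hEL hEbot
  have hfinG : Finite Gam := hctx.finG
  have hfinO : Finite Om := hctx.finO
  have hfaith : FaithfulSMul Gam Om := hctx.faithful
  have hLn : L.Normal := hctx.normal
  have hfY : Finite (orbitRel.Quotient E Om) := by
    unfold orbitRel.Quotient
    infer_instance
  set ρ := II4_rho (Om := Om) E hE with hρ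
  set W : Subgroup (Equiv.Perm (orbitRel.Quotient E Om)) := L.map ρ with hW
  have hEker : E ≤ ρ.ker := by
    intro e he
    rw [MonoidHom.mem_ker]
    ext y
    induction y using Quotient.inductionOn with
    | h a =>
      rw [hρ, II4_rho_mk, Equiv.Perm.one_apply, II4_mk_eq]
      exact ⟨e, he, rfl⟩
  -- odd order
  have hodd : ¬ 2 ∣ Nat.card W := by
    intro h2
    apply hII3 Gam Om L c hctx E hE hEL hEbot
    refine h2.trans ?_
    rw [hW, ← Subgroup.relIndex_ker]
    exact Subgroup.relIndex_dvd_of_le_left L hEker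
  -- the cyclic group
  have hcL : c ∈ L := hctx.mem
  have hρcW : ∀ v ∈ L, ρ v ∈ W := fun v hv => Subgroup.mem_map_of_mem ρ hv
  set α : W := ⟨ρ c, hρcW c hcL⟩ with hα
  have hαpow : ∀ (n : ℕ) (a : Om), (α ^ n) • (Quotient.mk (orbitRel E Om) a :
      orbitRel.Quotient E Om) = Quotient.mk (orbitRel E Om) (c ^ n • a) := by
    intro n a
    have h1 : ((α ^ n : W) : Equiv.Perm (orbitRel.Quotient E Om)) = ρ (c ^ n) := by
      rw [map_pow]
      rfl
    show ((α ^ n : W) : Equiv.Perm (orbitRel.Quotient E Om)) _ = _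
    rw [h1]
    rfl
  have htr : ∀ y y' : orbitRel.Quotient E Om, ∃ n : ℕ, (α ^ n) • y = y' := by
    intro y y'
    induction y using Quotient.inductionOn with
    | h a =>
      induction y' using Quotient.inductionOn with
      | h b =>
        obtain ⟨n, hn⟩ := hctx.tr a b
        exact ⟨n, by rw [hαpow, hn]⟩
  set A : Subgroup W := Subgroup.zpowers α with hA
  have hsemi : ∀ a ∈ A, ∀ y : orbitRel.Quotient E Om, a • y = y → a = 1 := by
    rintro a ⟨i, hi⟩ y hy
    have hi' : α ^ i = a := hi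
    apply Subtype.ext
    ext y'
    obtain ⟨n, hn⟩ := htr y y'
    have h1 : a • y' = y' := by
      rw [← hn, ← mul_smul, ← hi', ← zpow_natCast α n, ← zpow_add, add_comm, zpow_add, mul_smul,
        hi', hy]
    exact h1
  have htr' : ∀ (v : W) (y : orbitRel.Quotient E Om), ∃ a ∈ A, a • y = v • y := by
    intro v y
    obtain ⟨n, hn⟩ := htr y (v • y)
    exact ⟨α ^ n, Subgroup.pow_mem _ (Subgroup.mem_zpowers α) n, hn⟩
  -- the order of `A` divides `|Om|`
  have hcOm : c ^ Nat.card Om = 1 := by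
    apply hfaith.eq_of_smul_eq_smul
    intro a
    rw [one_smul]
    have horb : orbit (Subgroup.zpowers c) a = Set.univ := by
      rw [Set.eq_univ_iff_forall]
      intro b
      obtain ⟨n, hn⟩ := hctx.tr a b
      exact ⟨⟨c ^ n, Subgroup.pow_mem _ (Subgroup.mem_zpowers c) n⟩, hn⟩
    have hfo : Fintype (orbit (Subgroup.zpowers c) a) := Fintype.ofFinite _
    have h1 := MulAction.minimalPeriod_eq_card (a := c) (b := a)
    have h2 : Nat.card Om = Fintype.card (orbit (Subgroup.zpowers c) a) := by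
      rw [← Nat.card_eq_fintype_card, horb, Nat.card_univ]
    rw [MulAction.pow_smul_eq_iff_minimalPeriod_dvd, h1, h2]
  have hcardA : Nat.card A ∣ Nat.card Om := by
    rw [hA, Nat.card_zpowers]
    apply orderOf_dvd_of_pow_eq_one
    apply Subtype.ext
    show ((α ^ Nat.card Om : W) : Equiv.Perm (orbitRel.Quotient E Om)) = 1
    have h1 : ((α ^ Nat.card Om : W) : Equiv.Perm (orbitRel.Quotient E Om)) =
        ρ (c ^ Nat.card Om) := by
      rw [map_pow]
      rfl
    rw [h1, hcOm, map_one]
  -- stabilisers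
  have hstab : ∀ y : orbitRel.Quotient E Om,
      Nat.Coprime (Nat.card (stabilizer W y)) (Nat.card Om) := by
    intro y
    induction y using Quotient.inductionOn with
    | h a =>
      have hco := hctx.copr a
      have hdvd : Nat.card (stabilizer W (Quotient.mk (orbitRel E Om) a :
          orbitRel.Quotient E Om)) ∣ Nat.card (L ⊓ stabilizer Gam a : Subgroup Gam) := by
        have hle : (stabilizer W (Quotient.mk (orbitRel E Om) a :
            orbitRel.Quotient E Om)).map W.subtype ≤ (L ⊓ stabilizer Gam a).map ρ := by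
          rintro _ ⟨⟨w, hw⟩, hw2, rfl⟩
          obtain ⟨v, hv, rfl⟩ := hw
          have hw3 : ρ v (Quotient.mk (orbitRel E Om) a) = Quotient.mk (orbitRel E Om) a := hw2
          rw [hρ, II4_rho_mk, II4_mk_eq] at hw3
          obtain ⟨e, he, hea⟩ := hw3
          refine ⟨e⁻¹ * v, ⟨L.mul_mem (L.inv_mem (hEL he)) hv, ?_⟩, ?_⟩
          · show (e⁻¹ * v) • a = a
            rw [mul_smul, ← hea, inv_smul_smul]
          · have hek : ρ e⁻¹ = 1 := by
              rw [← MonoidHom.mem_ker]
              exact hEker (E.inv_mem he)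
            rw [map_mul, hek, one_mul]
            rfl
        have h1 := Subgroup.card_dvd_of_le hle
        have h2 : Nat.card ((stabilizer W (Quotient.mk (orbitRel E Om) a :
            orbitRel.Quotient E Om)).map W.subtype) = Nat.card (stabilizer W
              (Quotient.mk (orbitRel E Om) a : orbitRel.Quotient E Om)) :=
          (Nat.card_congr (Subgroup.equivMapOfInjective _ _ W.subtype_injective).toEquiv).symm
        rw [h2] at h1
        exact h1.trans (Subgroup.card_map_dvd _ ρ)
      exact Nat.Coprime.coprime_dvd_left hdvd hco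
  have hstabA : ∀ y : orbitRel.Quotient E Om,
      Nat.Coprime (Nat.card (stabilizer W y)) (Nat.card A) :=
    fun y => Nat.Coprime.coprime_dvd_right hcardA (hstab y)
  have hcycA : IsCyclic A := by rw [hA]; infer_instance
  obtain ⟨hAn, hAC⟩ := hLO W (orbitRel.Quotient E Om) A hodd hcycA hsemi htr' hstabA
  -- the index of `A`
  have hOmne : Nonempty Om := by
    have := hctx.one
    exact (Nat.card_pos_iff.mp (by omega)).1
  obtain ⟨a0⟩ := hOmne
  set y0 : orbitRel.Quotient E Om := Quotient.mk (orbitRel E Om) a0 with hy0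
  have hpre : IsPretransitive W (orbitRel.Quotient E Om) := by
    constructor
    intro y y'
    obtain ⟨n, hn⟩ := htr y y'
    exact ⟨α ^ n, hn⟩
  have hcardAY : Nat.card A = Nat.card (orbitRel.Quotient E Om) := by
    refine Nat.card_congr (Equiv.ofBijective (fun a : A => (a : W) • y0) ⟨?_, ?_⟩)
    · intro a b hab
      have hab' : (a : W) • y0 = (b : W) • y0 := hab
      have h1 : ((b : W)⁻¹ * (a : W)) • y0 = y0 := by
        rw [mul_smul, hab', inv_smul_smul]
      have h2 := hsemi _ (A.mul_mem (A.inv_mem b.2) a.2) y0 h1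
      apply Subtype.ext
      exact (inv_mul_eq_one.mp h2).symm
    · intro y
      obtain ⟨n, hn⟩ := htr y0 y
      exact ⟨⟨α ^ n, Subgroup.pow_mem _ (Subgroup.mem_zpowers α) n⟩, hn⟩
  have hindex : A.index = Nat.card (stabilizer W y0) := by
    have h1 := Subgroup.card_mul_index A
    have h2 := Subgroup.card_mul_index (stabilizer W y0)
    rw [index_stabilizer_of_transitive, ← hcardAY] at h2
    have h3 : 0 < Nat.card A := Nat.card_pos
    have h4 : Nat.card A * A.index = Nat.card A * Nat.card (stabilizer W y0) := by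
      rw [h1, ← h2, mul_comm]
    exact Nat.eq_of_mul_eq_mul_left h3 h4
  have hchar : ∀ w : W, w ^ Nat.card A = 1 → w ∈ A := by
    intro w hw
    apply II4_coprime A w (Nat.card A) A.index
    · rw [hindex]
      exact (hstabA y0).symm
    · rw [hw]; exact A.one_mem
    · exact A.pow_index_mem w
  -- `A` is normalised by the whole group
  have hnorm : ∀ g : Gam, ρ g * ρ c * (ρ g)⁻¹ ∈ Subgroup.zpowers (ρ c) := by
    intro g
    have hmem : ρ g * ρ c * (ρ g)⁻¹ ∈ W := by
      have := hρcW (g * c * g⁻¹) (hLn.conj_mem c hcL g)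
      rwa [map_mul, map_mul, map_inv] at this
    have hmA : (⟨ρ g * ρ c * (ρ g)⁻¹, hmem⟩ : W) ∈ A := by
      apply hchar
      apply Subtype.ext
      show (ρ g * ρ c * (ρ g)⁻¹) ^ Nat.card A = 1
      have h1 : (ρ c) ^ Nat.card A = 1 := by
        have h2 : α ^ Nat.card A = 1 := by
          rw [hA, Nat.card_zpowers]
          exact pow_orderOf_eq_one α
        exact congrArg Subtype.val h2
      rw [conj_pow, h1, mul_one, mul_inv_cancel]
    obtain ⟨i, hi⟩ := hmA
    have hi' : α ^ i = (⟨ρ g * ρ c * (ρ g)⁻¹, hmem⟩ : W) := hi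
    refine ⟨i, ?_⟩
    have := congrArg Subtype.val hi'
    exact this
  -- `L` centralises `ρ c`
  have hcent : ∀ v ∈ L, ρ v * ρ c = ρ c * ρ v := by
    have hle : ⁅(⊤ : Subgroup Gam), L⁆ ≤ (Subgroup.centralizer {ρ c}).comap ρ := by
      rw [Subgroup.commutator_le]
      intro g _ v _
      rw [Subgroup.mem_comap, Subgroup.mem_centralizer_singleton_iff, commutatorElement_def,
        map_mul, map_mul, map_mul, map_inv, map_inv]
      apply II4_comm (ρ c) (ρ g) (ρ v) (hnorm g) (hnorm v)
      have := hnorm (v * g)⁻¹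
      rw [map_inv, map_mul, inv_inv] at this
      exact this
    rw [hctx.zp] at hle
    intro v hv
    have := hle hv
    rw [Subgroup.mem_comap, Subgroup.mem_centralizer_singleton_iff] at this
    exact this
  have hWA : ∀ w : W, w ∈ A := by
    intro w
    apply hAC
    rintro a ⟨i, hi⟩
    have hi' : α ^ i = a := hi
    obtain ⟨w, hw⟩ := w
    obtain ⟨v, hv, rfl⟩ := hw
    have h1 : Commute (⟨ρ v, hρcW v hv⟩ : W) α := by
      apply Subtype.ext
      exact hcent v hv
    rw [← hi']
    exact (h1.zpow_right i).eq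
  -- `3`-elements act trivially
  have htriv : L ≤ ρ.ker := by
    have h3 : ∀ x ∈ L, (∃ n : ℕ, x ^ (3 ^ n) = 1) → ρ x = 1 := by
      rintro x hx ⟨n, hn⟩
      have h1 := hWA ⟨ρ x, hρcW x hx⟩
      have h2 : (⟨ρ x, hρcW x hx⟩ : W) ∈ (⊥ : Subgroup W) := by
        apply II4_coprime ⊥ _ (3 ^ n) (Nat.card A)
        · apply Nat.Coprime.pow_left
          rw [Nat.Prime.coprime_iff_not_dvd Nat.prime_three]
          intro h4
          exact hctx.three (h4.trans hcardA)
        · rw [Subgroup.mem_bot]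
          apply Subtype.ext
          show (ρ x) ^ (3 ^ n) = 1
          rw [← map_pow, hn, map_one]
        · rw [Subgroup.mem_bot]
          have h5 : (⟨⟨ρ x, hρcW x hx⟩, h1⟩ : A) ^ Nat.card A = 1 := pow_card_eq_one'
          exact congrArg Subtype.val h5
      rw [Subgroup.mem_bot] at h2
      exact congrArg Subtype.val h2
    rw [← hctx.gen3, Subgroup.closure_le]
    rintro x ⟨hx, hn⟩
    rw [SetLike.mem_coe, MonoidHom.mem_ker]
    exact h3 x hx hn
  have hρc : ρ c = 1 := by
    rw [← MonoidHom.mem_ker]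
    exact htriv hcL
  intro a b
  obtain ⟨n, hn⟩ := hctx.tr a b
  have h1 : ρ (c ^ n) (Quotient.mk (orbitRel E Om) a) = Quotient.mk (orbitRel E Om) b := by
    rw [hρ, II4_rho_mk, hn]
  rw [map_pow, hρc, one_pow, Equiv.Perm.one_apply] at h1
  have h2 := (II4_mk_eq E b a).mp h1.symm
  exact h2

end Pool.Agent.helper75.AU
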