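import Pool.Agent.helper87.AU.SpecQ2

/-! # Project au, module QF3 (formal properties of `theta` and `jump`) -/

namespace Pool.Agent.helper53.AU

open scoped Classical IntermediateField

section

variable {k F : Type} [Field k] [Field F] [Algebra k F]

lemma QF3_fix_mul {s s' : F ≃ₐ[k] F} {P : Place k F} (h : s • P = P) (h' : s' • P = P) :
    (s * s') • P = P := by
  rw [mul_smul, h', h]

lemma QF3_fix_inv {s : F ≃ₐ[k] F} {P : Place k F} (h : s • P = P) : s⁻¹ • P = P := by
  conv_lhs => rw [← h]
  exact inv_smul_smul s P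

/-- leading coefficient of a uniformiser with respect to another one -/
lemma QF3_lead [IsAlgClosed k] (hQV1 : QV1_stmt) (hF : IsFF k F) (P : Place k F) {t v : F}
    (ht : P.Unif t) (hv : P.Unif v) : ∃ b : k, P.Ge 2 (v - algebraMap k F b * t) := by
  have h1 : P.Ge 0 (v * t⁻¹) := by
    have h2 : P.Ge (-1) t⁻¹ := by
      right
      rw [P.ord_inv ht.1, ht.2]
    have h3 : P.Ge 1 v := Or.inr (le_of_eq hv.2.symm)
    simpa using h3.mul h2
  obtain ⟨b, hb⟩ := hQV1 k F hF P _ h1
  refine ⟨b, ?_⟩
  have e : v - algebraMap k F b * t = t * (v * t⁻¹ - algebraMap k F b) := by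
    have := ht.1
    field_simp
  rw [e]
  have h3 : P.Ge 1 t := Or.inr (le_of_eq ht.2.symm)
  exact (h3.mul hb).mono (by norm_num)

end

theorem QF3 (hQV1 : QV1_stmt) (hQF1 : QF1_stmt) (hQF2 : QF2_stmt) : QF3_stmt := by
  intro k F _ _ _ _ hF P
  refine ⟨?_, ?_, ?_, ?_⟩
  · intro s s' hs hs'
    obtain ⟨_, _, h3, _⟩ := hQF2 k F hF P s hs
    obtain ⟨_, h2', _, _⟩ := hQF2 k F hF P s' hs'
    obtain ⟨_, h2'', _, _⟩ := hQF2 k F hF P (s * s') (QF3_fix_mul hs hs')
    have h4 := (h2' (P.theta s')).mpr rfl
    have h5 : P.Ge (1 + 1) (s' P.unif - algebraMap k F (P.theta s') * P.unif ^ (1 : ℤ)) := by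
      rw [zpow_one]
      exact h4
    have h6 := h3 1 (P.theta s') (s' P.unif) h5
    rw [zpow_one, zpow_one] at h6
    have h7 := (h2'' (P.theta s' * P.theta s)).mp h6
    rw [← h7, mul_comm]
  · intro a s hs
    have hfix : (a * s * a⁻¹) • (a • P) = a • P := by
      rw [mul_smul, mul_smul, inv_smul_smul, hs]
    have hQord : ∀ f : F, (a • P).ord (a f) = P.ord f := smul_ord_apply a P
    have happ : ∀ f : F, (a * s * a⁻¹) (a f) = a (s f) := by
      intro f
      show a (s (a⁻¹ (a f))) = a (s f)
      have : a⁻¹ (a f) = f := AlgEquiv.symm_apply_apply a f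
      rw [this]
    refine ⟨?_, ?_⟩
    · obtain ⟨_, h2, h3, _⟩ := hQF2 k F hF P s hs
      obtain ⟨_, h2', _, _⟩ := hQF2 k F hF (a • P) (a * s * a⁻¹) hfix
      symm
      apply (h2' (P.theta s)).mp
      set u := (a • P).unif with hu
      have huu : (a • P).Unif u := (a • P).unif_spec
      set v := a⁻¹ u with hv
      have hav : a v = u := AlgEquiv.apply_symm_apply a u
      have hvu : P.Unif v := by
        refine ⟨?_, ?_⟩
        · intro h0
          apply huu.1
          rw [← hav, h0, map_zero]
        · rw [← hQord v, hav]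
          exact huu.2
      obtain ⟨b, hb⟩ := QF3_lead hQV1 hF P P.unif_spec hvu
      have h5 : P.Ge (1 + 1) (v - algebraMap k F b * P.unif ^ (1 : ℤ)) := by
        rw [zpow_one]
        exact hb
      have h6 := h3 1 b v h5
      rw [zpow_one, zpow_one] at h6
      have h7 : P.Ge 2 (s v - algebraMap k F (P.theta s) * v) := by
        have e : s v - algebraMap k F (P.theta s) * v =
            (s v - algebraMap k F (b * P.theta s) * P.unif) -
              algebraMap k F (P.theta s) * (v - algebraMap k F b * P.unif) := by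
          rw [map_mul]; ring
        rw [e]
        exact Place.Ge.sub h6 (hb.const_mul _)
      have h8 := (smul_ge a P 2 _).mpr h7
      rw [map_sub, map_mul, AlgEquiv.commutes, ← happ, hav] at h8
      exact h8
    · by_cases hs1 : s = 1
      · subst hs1
        have e : a * 1 * a⁻¹ = 1 := by group
        rw [e]
        unfold Place.jump
        have e1 : (1 : F ≃ₐ[k] F) (a • P).unif - (a • P).unif = 0 := by
          rw [AlgEquiv.one_apply, sub_self]
        have e2 : (1 : F ≃ₐ[k] F) P.unif - P.unif = 0 := by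
          rw [AlgEquiv.one_apply, sub_self]
        rw [e1, e2, P.ord_zero, (a • P).ord_zero]
      · have hne : a * s * a⁻¹ ≠ 1 := by
          intro h
          apply hs1
          have : s = a⁻¹ * (a * s * a⁻¹) * a := by group
          rw [this, h]; group
        have h1 := ((hQF1 k F hF P s hs hs1).1 P.unif P.unif_spec).2
        have hau : (a • P).Unif (a P.unif) := by
          refine ⟨?_, ?_⟩
          · intro h0
            exact P.unif_spec.1 ((map_eq_zero a).mp h0)
          · rw [hQord]
            exact P.unif_spec.2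
        have h2 := ((hQF1 k F hF (a • P) (a * s * a⁻¹) hfix hne).1 (a P.unif) hau).2
        rw [happ, ← map_sub, hQord, h1] at h2
        have : (P.jump s : ℤ) = (a • P).jump (a * s * a⁻¹) := by linarith
        exact_mod_cast this.symm
  · intro s hs
    have hi := QF3_fix_inv hs
    unfold Place.jump
    have e : s⁻¹ P.unif - P.unif = -(s⁻¹ (s P.unif - P.unif)) := by
      rw [map_sub]
      have : s⁻¹ (s P.unif) = P.unif := AlgEquiv.symm_apply_apply s P.unif
      rw [this]
      ring
    rw [e, P.ord_neg, ord_apply_of_smul_eq hi]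
  · intro s s' hs hs' h1 h1' h1''
    obtain ⟨a0, a1⟩ := (hQF1 k F hF P s hs h1).1 P.unif P.unif_spec
    obtain ⟨b0, b1⟩ := (hQF1 k F hF P s' hs' h1').1 P.unif P.unif_spec
    obtain ⟨c0, c1⟩ := (hQF1 k F hF P (s * s') (QF3_fix_mul hs hs') h1'').1 P.unif P.unif_spec
    have e : (s * s') P.unif - P.unif = s (s' P.unif - P.unif) + (s P.unif - P.unif) := by
      rw [map_sub]
      show s (s' P.unif) - P.unif = _
      ring
    set m : ℤ := min (P.jump s : ℤ) (P.jump s' : ℤ) with hm
    have g1 : P.Ge (m + 1) (s P.unif - P.unif) := by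
      right
      rw [a1]
      have := min_le_left (P.jump s : ℤ) (P.jump s' : ℤ)
      omega
    have g2 : P.Ge (m + 1) (s (s' P.unif - P.unif)) := by
      right
      rw [ord_apply_of_smul_eq hs, b1]
      have := min_le_right (P.jump s : ℤ) (P.jump s' : ℤ)
      omega
    have g3 : P.Ge (m + 1) ((s * s') P.unif - P.unif) := by
      rw [e]
      exact g2.add g1
    have g4 := g3.le c0
    rw [c1] at g4
    have g5 : m ≤ (P.jump (s * s') : ℤ) := by omega
    rw [hm] at g5
    have : ((min (P.jump s) (P.jump s') : ℕ) : ℤ) ≤ (P.jump (s * s') : ℤ) := by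
      push_cast
      exact g5
    exact_mod_cast this

end Pool.Agent.helper53.AU
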