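import Pool.Agent.helper87.AU.SpecQ2

/-! # Project au, module QF4 (leading coefficients) -/

namespace Pool.Agent.helper53.AU

open scoped Classical IntermediateField

section

variable {k F : Type} [Field k] [Field F] [Algebra k F]

lemma QF4_ge_zpow (P : Place k F) {t : F} (ht : P.Unif t) (m : ℤ) : P.Ge m (t ^ m) := by
  right
  rw [P.ord_zpow ht.1, ht.2, mul_one]

lemma QF4_ge_npow (P : Place k F) {t : F} (ht : P.Unif t) (m : ℕ) : P.Ge m (t ^ m) := by
  right
  rw [P.ord_pow ht.1, ht.2, mul_one]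

lemma QF4_ge_intCast (P : Place k F) (m : ℤ) : P.Ge 0 ((m : ℤ) : F) := by
  have : ((m : ℤ) : F) = algebraMap k F (m : k) := by simp
  rw [this]
  exact P.ge_const _

/-- binomial expansion to first order -/
lemma QF4_binom (P : Place k F) (w : F) (i : ℤ) (hi : 1 ≤ i) (hw : P.Ge i w) (m : ℤ) :
    P.Ge (2 * i) ((1 + w) ^ m - 1 - (m : F) * w) := by
  have h1 : (1 : F) + w ≠ 0 ∧ P.ord (1 + w) = P.ord 1 := by
    apply Place.ord_add_eq one_ne_zero
    rw [P.ord_one]
    exact hw.mono (by omega)
  have hu0 : (1 : F) + w ≠ 0 := h1.1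
  have hu : P.Ge 0 ((1 : F) + w) := by
    right
    rw [h1.2, P.ord_one]
  have hui : P.Ge 0 ((1 : F) + w)⁻¹ := by
    right
    rw [P.ord_inv hu0, h1.2, P.ord_one]
    simp
  have hw2 : P.Ge (2 * i) (w * w) := (hw.mul hw).mono (by omega)
  induction m using Int.induction_on with
  | zero => left; simp
  | succ m ih =>
    have e : (1 + w) ^ ((m : ℤ) + 1) - 1 - (((m : ℤ) + 1 : ℤ) : F) * w =
        (1 + w) * ((1 + w) ^ (m : ℤ) - 1 - (((m : ℤ)) : F) * w) + ((m : ℤ) : F) * (w * w) := by
      rw [zpow_add₀ hu0, zpow_one]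
      push_cast
      ring
    rw [e]
    refine Place.Ge.add ?_ ?_
    · simpa using hu.mul ih
    · simpa using (QF4_ge_intCast P (m : ℤ)).mul hw2
  | pred m ih =>
    have e : (1 + w) ^ (-(m : ℤ) - 1) - 1 - ((-(m : ℤ) - 1 : ℤ) : F) * w =
        (1 + w)⁻¹ * (((1 + w) ^ (-(m : ℤ)) - 1 - ((-(m : ℤ) : ℤ) : F) * w) -
          ((-(m : ℤ) - 1 : ℤ) : F) * (w * w)) := by
      rw [zpow_sub₀ hu0, zpow_one]
      have : (1 + w)⁻¹ * (1 + w) = 1 := inv_mul_cancel₀ hu0
      push_cast
      field_simp
      ring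
    rw [e]
    have h3 : P.Ge (2 * i) (((-(m : ℤ) - 1 : ℤ) : F) * (w * w)) := by
      simpa using (QF4_ge_intCast P (-(m : ℤ) - 1)).mul hw2
    simpa using hui.mul (ih.sub h3)

/-- existence of a leading coefficient -/
lemma QF4_lead [IsAlgClosed k] (hQV1 : QV1_stmt) (hF : IsFF k F) (P : Place k F) {t y : F}
    (ht : P.Unif t) (n : ℕ) (hy : P.Ge n y) :
    ∃ a : k, P.Ge ((n : ℤ) + 1) (y - algebraMap k F a * t ^ n) := by
  have htn : t ^ n ≠ 0 := pow_ne_zero n ht.1
  have h1 : P.Ge 0 (y * (t ^ n)⁻¹) := by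
    have h2 : P.Ge (-(n : ℤ)) (t ^ n)⁻¹ := by
      right
      rw [P.ord_inv htn, P.ord_pow ht.1, ht.2, mul_one]
    simpa using hy.mul h2
  obtain ⟨a, ha⟩ := hQV1 k F hF P _ h1
  refine ⟨a, ?_⟩
  have e : y - algebraMap k F a * t ^ n = t ^ n * (y * (t ^ n)⁻¹ - algebraMap k F a) := by
    field_simp
  rw [e]
  exact (QF4_ge_npow P ht n).mul ha

end

theorem QF4 (hQV1 : QV1_stmt) (hQF1 : QF1_stmt) : QF4_stmt := by
  intro k F _ _ _ _ hF P s hs hs1 hj
  obtain ⟨hA, hB⟩ := hQF1 k F hF P s hs hs1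
  set i := P.jump s with hi
  set t := P.unif with ht
  have htu : P.Unif t := P.unif_spec
  obtain ⟨hy0, hy⟩ := hA t htu
  have hyge : P.Ge ((i + 1 : ℕ) : ℤ) (s t - t) := by
    right
    rw [hy]
    push_cast
    exact le_rfl
  have hex : ∃ a : k, P.Ge ((i : ℤ) + 2) (s t - t - algebraMap k F a * t ^ (i + 1)) := by
    obtain ⟨a, ha⟩ := QF4_lead hQV1 hF P htu (i + 1) hyge
    refine ⟨a, ?_⟩
    have e : (((i + 1 : ℕ) : ℤ) + 1) = (i : ℤ) + 2 := by push_cast; ring
    rw [e] at ha
    exact ha
  have hspec : P.Ge ((i : ℤ) + 2) (s t - t - algebraMap k F (P.lcoef s) * t ^ (i + 1)) := by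
    unfold Place.lcoef
    rw [dif_pos hex]
    exact hex.choose_spec
  set a := P.lcoef s with ha
  have huniq : ∀ a' : k, P.Ge ((i : ℤ) + 2) (s t - t - algebraMap k F a' * t ^ (i + 1)) →
      a' = a := by
    intro a' h'
    by_contra hne
    have h1 := hspec.sub h'
    have e : (s t - t - algebraMap k F a * t ^ (i + 1)) - (s t - t - algebraMap k F a' * t ^ (i + 1))
        = algebraMap k F (a' - a) * t ^ (i + 1) := by
      rw [map_sub]; ring
    rw [e] at h1
    have hc : a' - a ≠ 0 := sub_ne_zero.mpr hne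
    have hc' : algebraMap k F (a' - a) ≠ 0 :=
      fun h0 => hc ((map_eq_zero (algebraMap k F)).mp h0)
    have hp : t ^ (i + 1) ≠ 0 := pow_ne_zero _ htu.1
    have h2 := h1.le (mul_ne_zero hc' hp)
    rw [P.ord_mul _ _ hc' hp, P.ord_const _ hc, P.ord_pow htu.1, htu.2] at h2
    push_cast at h2
    omega
  refine ⟨?_, ?_, ?_⟩
  · intro h0
    rw [h0, map_zero, zero_mul, sub_zero] at hspec
    have := hspec.le hy0
    rw [hy] at this
    omega
  · intro a'
    constructor
    · exact huniq a'
    · rintro rfl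
      exact hspec
  · intro m b f hf
    have hf' := hB (m + 1) _ hf
    -- the function `w`
    set w := (s t - t) * t⁻¹ with hw
    have htinv : P.Ge (-1) t⁻¹ := by
      right
      rw [P.ord_inv htu.1, htu.2]
    have hwge : P.Ge (i : ℤ) w := by
      have h1 : P.Ge ((i : ℤ) + 1) (s t - t) := by
        right; rw [hy]
      have h2 := h1.mul htinv
      exact h2.mono (by omega)
    have hst : s t = t * (1 + w) := by
      rw [hw]
      have := htu.1
      field_simp
      ring
    have hi1 : (1 : ℤ) ≤ i := by exact_mod_cast hj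
    have hbin := QF4_binom P w i hi1 hwge m
    have hw2 : P.Ge ((i : ℤ) + 1) (w - algebraMap k F a * t ^ i) := by
      have e : w - algebraMap k F a * t ^ i =
          (s t - t - algebraMap k F a * t ^ (i + 1)) * t⁻¹ := by
        rw [hw, pow_succ]
        have := htu.1
        field_simp
      rw [e]
      have := hspec.mul htinv
      exact this.mono (by omega)
    have hmain : P.Ge (m + i + 1) (s (t ^ m) - t ^ m -
        algebraMap k F ((m : k) * a) * t ^ (m + (i : ℤ))) := by
      have e : s (t ^ m) - t ^ m - algebraMap k F ((m : k) * a) * t ^ (m + (i : ℤ)) =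
          t ^ m * ((1 + w) ^ m - 1 - (m : F) * w) +
            t ^ m * ((m : F) * (w - algebraMap k F a * t ^ i)) := by
        rw [map_zpow₀, hst, mul_zpow, zpow_add₀ htu.1, zpow_natCast, map_mul, map_intCast]
        ring
      rw [e]
      refine Place.Ge.add ?_ ?_
      · exact ((QF4_ge_zpow P htu m).mul hbin).mono (by omega)
      · have h3 : P.Ge ((i : ℤ) + 1) ((m : F) * (w - algebraMap k F a * t ^ i)) := by
          simpa using (QF4_ge_intCast P m).mul hw2
        exact ((QF4_ge_zpow P htu m).mul h3).mono (by omega)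
    have e : s f - f - algebraMap k F ((m : k) * b * a) * t ^ (m + (i : ℤ)) =
        (s (f - algebraMap k F b * t ^ m) - (f - algebraMap k F b * t ^ m)) +
          algebraMap k F b * (s (t ^ m) - t ^ m -
            algebraMap k F ((m : k) * a) * t ^ (m + (i : ℤ))) := by
      have e1 : s (f - algebraMap k F b * t ^ m) = s f - algebraMap k F b * s (t ^ m) := by
        rw [map_sub, map_mul, AlgEquiv.commutes]
      have e2 : algebraMap k F ((m : k) * b * a) =
          algebraMap k F (m : k) * algebraMap k F b * algebraMap k F a := by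
        rw [map_mul, map_mul]
      have e3 : algebraMap k F ((m : k) * a) = algebraMap k F (m : k) * algebraMap k F a :=
        map_mul _ _ _
      rw [e1, e2, e3]
      ring
    rw [e]
    refine Place.Ge.add ?_ ?_
    · exact hf'.mono (by omega)
    · exact hmain.const_mul b

end Pool.Agent.helper53.AU
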