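import Pool.Agent.helper87.AU.SpecQ1

/-! # Project au, module QL0 (`F / k(z)` is finite) -/

namespace Pool.Agent.helper53.AU

open scoped Classical IntermediateField
open Polynomial (aeval)

open scoped IntermediateField.algebraAdjoinAdjoin in
lemma QL0_alg {k F : Type} [Field k] [Field F] [Algebra k F] (x : F)
    (h : Algebra.IsAlgebraic k⟮x⟯ F) : Algebra.IsAlgebraic (Algebra.adjoin k ({x} : Set F)) F :=
  Algebra.IsAlgebraic.trans (Algebra.adjoin k ({x} : Set F)) k⟮x⟯ F

theorem QL0 : QL0_stmt := by
  intro k F _ _ _ hF z hz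
  obtain ⟨x, hx, hfin⟩ := hF
  have e1 : Algebra.EssFiniteType k k⟮x⟯ :=
    IntermediateField.essFiniteType_iff.mpr
      (IntermediateField.fg_adjoin_of_finite (Set.finite_singleton x))
  have e3 : Algebra.EssFiniteType k F := Algebra.EssFiniteType.comp k k⟮x⟯ F
  have e4 : Algebra.EssFiniteType k⟮z⟯ F := Algebra.EssFiniteType.of_comp k k⟮z⟯ F
  have halg : Algebra.IsAlgebraic (Algebra.adjoin k ({x} : Set F)) F :=
    QL0_alg x inferInstance
  have htr : Algebra.trdeg k F ≤ 1 := by
    have := Algebra.IsAlgebraic.trdeg_le_cardinalMk k ({x} : Set F)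
    simpa using this
  have hzi : AlgebraicIndependent k (fun _ : Unit => z) :=
    algebraicIndependent_unique_type_iff.mpr hz
  have hzb := hzi.isTranscendenceBasis_of_trdeg_le (htr.trans_lt Cardinal.one_lt_aleph0)
    (by simpa using htr)
  have h5 := hzb.isAlgebraic_field
  rw [Set.range_const] at h5
  exact Algebra.finite_of_essFiniteType_of_isAlgebraic

end Pool.Agent.helper53.AU
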