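import Pool.Agent.helper87.AU.SpecQ1

/-! # Project au, module QV1 (the residue field is `k`) -/

namespace Pool.Agent.helper53.AU

open scoped Classical IntermediateField
open Polynomial (aeval)

section

variable {k F : Type} [Field k] [Field F] [Algebra k F]

/-- if all `f - c` are units at `P` then so are all `q(f)`, `q ≠ 0` -/
lemma QV1_poly [IsAlgClosed k] (P : Place k F) (f : F)
    (h : ∀ c : k, f - algebraMap k F c ≠ 0 ∧ P.ord (f - algebraMap k F c) = 0)
    (q : Polynomial k) (hq : q ≠ 0) : aeval f q ≠ 0 ∧ P.ord (aeval f q) = 0 := by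
  have hs : ∀ s : Multiset k,
      (s.map fun c => f - algebraMap k F c).prod ≠ 0 ∧
      P.ord (s.map fun c => f - algebraMap k F c).prod = 0 := by
    intro s
    induction s using Multiset.induction_on with
    | empty =>
      rw [Multiset.map_zero, Multiset.prod_zero]
      exact ⟨one_ne_zero, P.ord_one⟩
    | cons a s ih =>
      rw [Multiset.map_cons, Multiset.prod_cons]
      refine ⟨mul_ne_zero (h a).1 ih.1, ?_⟩
      rw [P.ord_mul _ _ (h a).1 ih.1, (h a).2, ih.2]
      rfl
  have hlc : q.leadingCoeff ≠ 0 := Polynomial.leadingCoeff_ne_zero.mpr hq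
  have hlc' : algebraMap k F q.leadingCoeff ≠ 0 := by
    simpa using hlc
  have e : aeval f q = algebraMap k F q.leadingCoeff *
      (q.roots.map fun c => f - algebraMap k F c).prod := by
    conv_lhs => rw [(IsAlgClosed.splits q).eq_prod_roots]
    rw [map_mul, Polynomial.aeval_C, map_multiset_prod, Multiset.map_map]
    congr 2
    apply Multiset.map_congr rfl
    intro c _
    simp
  rw [e]
  refine ⟨mul_ne_zero hlc' (hs q.roots).1, ?_⟩
  rw [P.ord_mul _ _ hlc' (hs q.roots).1, (hs q.roots).2, P.ord_const _ hlc]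
  rfl

/-- an element of order `1` cannot be algebraic over a ring of functions of order `0` -/
lemma QV1_alg (P : Place k F) (A : Subalgebra k F)
    (hA : ∀ a : A, a ≠ 0 → P.ord (a : F) = 0) (t : F) (ht : P.Unif t)
    (halg : IsAlgebraic A t) : False := by
  obtain ⟨p, hp, hpt⟩ := halg
  obtain ⟨ht0, ht1⟩ := ht
  set j := p.natTrailingDegree with hj
  have hcj : p.coeff j ≠ 0 := Polynomial.trailingCoeff_nonzero_iff_nonzero.mpr hp
  have hcj' : ((p.coeff j : A) : F) ≠ 0 := by
    intro h0
    exact hcj (Subtype.ext h0)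
  have hterm : ∀ i, p.coeff i ≠ 0 → ((p.coeff i : A) : F) * t ^ i ≠ 0 ∧
      P.ord (((p.coeff i : A) : F) * t ^ i) = i := by
    intro i hi
    have hi' : ((p.coeff i : A) : F) ≠ 0 := by
      intro h0
      exact hi (Subtype.ext h0)
    refine ⟨mul_ne_zero hi' (pow_ne_zero i ht0), ?_⟩
    rw [P.ord_mul _ _ hi' (pow_ne_zero i ht0), hA _ hi, P.ord_pow ht0, ht1]
    ring
  have hsum : aeval t p = ∑ i ∈ p.support, ((p.coeff i : A) : F) * t ^ i := by
    rw [Polynomial.aeval_def, Polynomial.eval₂_eq_sum, Polynomial.sum_def]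
    rfl
  have hmem : j ∈ p.support := Polynomial.mem_support_iff.mpr hcj
  rw [← Finset.add_sum_erase _ _ hmem] at hsum
  have hrest : P.Ge (P.ord (((p.coeff j : A) : F) * t ^ j) + 1)
      (∑ i ∈ p.support.erase j, ((p.coeff i : A) : F) * t ^ i) := by
    apply Place.Ge.sum
    intro i hi
    rw [Finset.mem_erase] at hi
    have hi2 := Polynomial.mem_support_iff.mp hi.2
    right
    rw [(hterm i hi2).2, (hterm j hcj).2]
    have : j ≤ i := Polynomial.natTrailingDegree_le_of_ne_zero hi2
    have hne := hi.1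
    omega
  have h := Place.ord_add_eq (hterm j hcj).1 hrest
  rw [← hsum, hpt] at h
  exact h.1 rfl

end

open scoped IntermediateField.algebraAdjoinAdjoin in
theorem QV1 (hQL0 : QL0_stmt) : QV1_stmt := by
  intro k F _ _ _ _ hF P f hf
  by_contra hcon
  push Not at hcon
  have h : ∀ c : k, f - algebraMap k F c ≠ 0 ∧ P.ord (f - algebraMap k F c) = 0 := by
    intro c
    have h1 := hcon c
    have hne : f - algebraMap k F c ≠ 0 := fun h0 => h1 (Or.inl h0)
    refine ⟨hne, ?_⟩
    have h2 : P.Ge 0 (f - algebraMap k F c) := hf.sub (P.ge_const c)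
    have h3 := h2.le hne
    have h4 : ¬ (1 ≤ P.ord (f - algebraMap k F c)) := fun h5 => h1 (Or.inr h5)
    omega
  have htr : Transcendental k f := by
    intro halg
    obtain ⟨q, hq, hqf⟩ := halg
    exact (QV1_poly P f h q hq).1 hqf
  have hfin : FiniteDimensional k⟮f⟯ F := hQL0 k F hF f htr
  have halg : Algebra.IsAlgebraic (Algebra.adjoin k ({f} : Set F)) F :=
    Algebra.IsAlgebraic.trans (Algebra.adjoin k ({f} : Set F)) k⟮f⟯ F
  refine QV1_alg P (Algebra.adjoin k ({f} : Set F)) ?_ P.unif P.unif_spec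
    (halg.isAlgebraic P.unif)
  intro a ha
  obtain ⟨q, hq⟩ : (a : F) ∈ (aeval f : Polynomial k →ₐ[k] F).range := by
    have hle : Algebra.adjoin k ({f} : Set F) ≤ (aeval f : Polynomial k →ₐ[k] F).range :=
      le_of_eq (Algebra.adjoin_singleton_eq_range_aeval k f)
    exact hle a.2
  have hq' : aeval f q = (a : F) := hq
  have hq0 : q ≠ 0 := by
    rintro rfl
    rw [map_zero] at hq'
    exact ha (Subtype.ext hq'.symm)
  rw [← hq']
  exact (QV1_poly P f h q hq0).2

end Pool.Agent.helper53.AU
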