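import Pool.Agent.helper53.AU.SpecG1

/-!
# au:RC, a regular abelian subgroup is its own centraliser
-/

namespace Pool.Agent.helper53.AU

open scoped Classical

theorem RC : RC_stmt := by
  intro X Ω _ _ _ A hne hreg _ x hx
  obtain ⟨ω⟩ := hne
  obtain ⟨a, ha, -⟩ := hreg ω (x • ω)
  have key : x = (a : X) := by
    refine FaithfulSMul.eq_of_smul_eq_smul (α := Ω) (fun β => ?_)
    obtain ⟨b, hb, -⟩ := hreg ω β
    rw [← hb, ← mul_smul, hx b b.2, mul_smul, ← ha, ← mul_smul, ← mul_smul]
    congr 1
    have := hx b b.2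
    have h2 : (b : X) * a = a * b := by
      have habel : ∀ a ∈ A, ∀ b ∈ A, a * b = b * a := by assumption
      exact habel b b.2 a a.2
    exact h2
  rw [key]
  exact a.2

end Pool.Agent.helper53.AU
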