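import Pool.Agent.helper75.AU.SpecR

/-! # Project au, module TR (a consequence of the transfer) -/

namespace Pool.Agent.helper75.AU

open scoped Classical
open Pool.Agent.helper53.AU MulAction

theorem TR : TR_stmt := by
  intro W _ _ r S z hr hS hind hzS hzc hconj
  have hF : Fact (Nat.Prime r) := ⟨hr⟩
  have key : ∀ (k : ℕ) (g₀ : W), g₀⁻¹ * z ^ k * g₀ ∈ S → g₀⁻¹ * z ^ k * g₀ = z ^ k := by
    intro k g₀ h
    have h1 := hconj g₀⁻¹ k
    rw [inv_inv] at h1
    exact h1 h
  have ht := MonoidHom.transfer_eq_pow (Abelianization.of : S →* Abelianization S) z key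
  have hzc' : z ∈ commutator W := by
    rw [commutator_def]
    exact hzc
  have hker := Abelianization.commutator_subset_ker
    (MonoidHom.transfer (Abelianization.of : S →* Abelianization S)) hzc'
  rw [MonoidHom.mem_ker, ht] at hker
  set y : S := ⟨z, hzS⟩ with hy
  have h1 : (Abelianization.of y) ^ S.index = 1 := by
    rw [← map_pow]
    exact hker
  have h2 : (Abelianization.of y) ^ Nat.card S = 1 := by
    rw [← map_pow, pow_card_eq_one', map_one]
  have hco : Nat.Coprime (Nat.card S) S.index := by
    obtain ⟨n, hn⟩ := hS.exists_card_eq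
    rw [hn]
    apply Nat.Coprime.pow_left
    rw [Nat.Prime.coprime_iff_not_dvd hr]
    exact hind
  have h3 : orderOf (Abelianization.of y) ∣ 1 := by
    rw [← hco]
    exact Nat.dvd_gcd (orderOf_dvd_of_pow_eq_one h2) (orderOf_dvd_of_pow_eq_one h1)
  have h4 : Abelianization.of y = 1 := by
    rw [← orderOf_eq_one_iff]
    exact Nat.dvd_one.mp h3
  have h5 : y ∈ commutator S := by
    rw [← Abelianization.ker_of, MonoidHom.mem_ker]
    exact h4
  rw [← Subgroup.map_subtype_commutator]
  exact ⟨y, h5, rfl⟩

end Pool.Agent.helper75.AU
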