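import Pool.Agent.helper53.AU.SpecG1

/-! # Project au, module TT (Thompson transfer) -/

namespace Pool.Agent.helper53.AU

open scoped Classical

lemma TT_sign {X : Type} [Fintype X] [DecidableEq X] (σ : Equiv.Perm X) (m : ℕ) (hX : Fintype.card X = 2 * m)
    (hm : Odd m) (h2 : σ ^ 2 = 1) (hfix : ∀ x, σ x ≠ x) : Equiv.Perm.sign σ = -1 := by
  have : Fact (Nat.Prime 2) := ⟨Nat.prime_two⟩
  have hc := Equiv.Perm.cycleType_of_pow_prime_eq_one h2
  have hs : σ.support = Finset.univ := by
    ext x
    simp [hfix x]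
  have hsum : σ.cycleType.sum = 2 * m := by
    rw [Equiv.Perm.sum_cycleType, hs, Finset.card_univ, hX]
  have hcard : Multiset.card σ.cycleType = m := by
    rw [hc, Multiset.sum_replicate, nsmul_eq_mul, Nat.cast_id] at hsum
    omega
  rw [Equiv.Perm.sign_of_cycleType, hsum, hcard]
  apply Odd.neg_one_pow
  obtain ⟨k, hk⟩ := hm
  exact ⟨3 * k + 1, by omega⟩

theorem TT : TT_stmt := by
  intro G _ _ M t hM ht hconj
  obtain ⟨m, hm, hodd⟩ := hM
  have : Fintype (G ⧸ M) := Fintype.ofFinite _
  refine ⟨Equiv.Perm.sign.comp (MulAction.toPermHom G (G ⧸ M)), ?_⟩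
  rw [MonoidHom.comp_apply]
  apply TT_sign _ m _ hodd
  · rw [← map_pow, pow_two, ht, map_one]
  · intro x
    induction x using QuotientGroup.induction_on with
    | H g =>
      rw [MulAction.toPermHom_apply, MulAction.toPerm_apply, MulAction.Quotient.smul_mk]
      intro h
      apply hconj g
      rw [QuotientGroup.eq] at h
      have h' := M.inv_mem h
      simpa [mul_assoc] using h'
  · rw [← hm, Subgroup.index, Nat.card_eq_fintype_card]

end Pool.Agent.helper53.AU
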