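import Pool.Agent.helper53.AU.SpecG1

/-! # Project au, module TZ (transfer: central elements of the commutator subgroup) -/

namespace Pool.Agent.helper53.AU

open scoped Classical

theorem TZ : TZ_stmt := by
  intro G _ _ p _ S z hz hzc hzS
  set H : Subgroup G := (S : Subgroup G) with hH
  have key : ∀ (k : ℕ) (g₀ : G), g₀⁻¹ * z ^ k * g₀ = z ^ k := by
    intro k g₀
    have h1 : z ^ k ∈ Subgroup.center G := Subgroup.pow_mem _ hz k
    have h2 := Subgroup.mem_center_iff.mp h1 g₀
    rw [mul_assoc, ← h2, inv_mul_cancel_left]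
  have ht := MonoidHom.transfer_eq_pow (Abelianization.of : H →* Abelianization H) z
    (fun k g₀ _ => key k g₀)
  have hker := Abelianization.commutator_subset_ker
    (MonoidHom.transfer (Abelianization.of : H →* Abelianization H)) hzc
  rw [MonoidHom.mem_ker, ht] at hker
  set y : H := ⟨z, hzS⟩ with hy
  have e : (⟨z ^ H.index, Subgroup.pow_mem _ hzS _⟩ : H) = y ^ H.index := rfl
  have h1 : (Abelianization.of y) ^ H.index = 1 := by
    rw [← map_pow]
    exact hker
  have h2 : (Abelianization.of y) ^ Nat.card H = 1 := by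
    rw [← map_pow, pow_card_eq_one', map_one]
  have hco : Nat.Coprime (Nat.card H) H.index := by
    obtain ⟨n, hn⟩ := S.isPGroup'.exists_card_eq
    rw [hn]
    apply Nat.Coprime.pow_left
    rw [Nat.Prime.coprime_iff_not_dvd (Fact.out : p.Prime)]
    exact S.not_dvd_index
  have h3 : orderOf (Abelianization.of y) ∣ 1 := by
    rw [← hco]
    exact Nat.dvd_gcd (orderOf_dvd_of_pow_eq_one h2) (orderOf_dvd_of_pow_eq_one h1)
  have h4 : Abelianization.of y = 1 := by
    rw [← orderOf_eq_one_iff]
    exact Nat.dvd_one.mp h3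
  have h5 : y ∈ commutator H := by
    rw [← Abelianization.ker_of, MonoidHom.mem_ker]
    exact h4
  rw [← Subgroup.map_subtype_commutator]
  exact ⟨y, h5, rfl⟩

end Pool.Agent.helper53.AU
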